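import Mathlib

set_option autoImplicit false

namespace Pool.Agent.Results.MP_41f0f1_an.SmoothCriticalCurve

open scoped ContDiff
open Set Filter Topology

/-- the partial derivative `f_x` -/
noncomputable def dx (f : ℝ × ℝ → ℝ) (p : ℝ × ℝ) : ℝ := deriv (fun t => f (t, p.2)) p.1

/-- the partial derivative `f_y` -/
noncomputable def dy (f : ℝ × ℝ → ℝ) (p : ℝ × ℝ) : ℝ := deriv (fun t => f (p.1, t)) p.2

/-- `R_f = (f_x (x - f_x) - f) / f_y` -/
noncomputable def R (f : ℝ × ℝ → ℝ) (p : ℝ × ℝ) : ℝ :=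
  (dx f p * (p.1 - dx f p) - f p) / dy f p

/-- `R_f` extends smoothly to a neighbourhood of the origin -/
def ExtendsSmoothly (f : ℝ × ℝ → ℝ) : Prop :=
  ∃ U : Set (ℝ × ℝ), IsOpen U ∧ (0, 0) ∈ U ∧ ∃ g : ℝ × ℝ → ℝ, ContDiffOn ℝ ∞ g U ∧
    ∀ p ∈ U, dy f p ≠ 0 → g p = R f p

/-- `C^∞` on some open neighbourhood of the origin -/
def SmoothNear {E : Type} [NormedAddCommGroup E] [NormedSpace ℝ E] (f : E → ℝ) : Prop :=
  ∃ U : Set E, IsOpen U ∧ (0 : E) ∈ U ∧ ContDiffOn ℝ ∞ f U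

/-- the Clairaut equation on an interval -/
lemma clairaut (r : ℝ) (hr : 0 < r) (w : ℝ → ℝ) (hw : ContDiffOn ℝ ∞ w (Ioo (-r) r))
    (h : ∀ x ∈ Ioo (-r) r, deriv w x * (x - deriv w x) = w x) :
    (∃ c, ∀ x ∈ Ioo (-r) r, w x = c * x - c ^ 2) ∨ (∀ x ∈ Ioo (-r) r, w x = x ^ 2 / 4) := by
  have ho : IsOpen (Ioo (-r) r) := isOpen_Ioo
  have h1 : ContDiffOn ℝ ∞ (deriv w) (Ioo (-r) r) := hw.deriv_of_isOpen ho (by simp)
  have h2 : ContDiffOn ℝ ∞ (deriv (deriv w)) (Ioo (-r) r) := h1.deriv_of_isOpen ho (by simp)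
  have d0 : ∀ x ∈ Ioo (-r) r, HasDerivAt w (deriv w x) x := fun x hx =>
    ((hw.differentiableOn (by simp)).differentiableAt (ho.mem_nhds hx)).hasDerivAt
  have d1 : ∀ x ∈ Ioo (-r) r, HasDerivAt (deriv w) (deriv (deriv w) x) x := fun x hx =>
    ((h1.differentiableOn (by simp)).differentiableAt (ho.mem_nhds hx)).hasDerivAt
  have key : ∀ x ∈ Ioo (-r) r, deriv (deriv w) x * (x - 2 * deriv w x) = 0 := by
    intro x hx
    have e1 : HasDerivAt (fun x => deriv w x * (x - deriv w x))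
        (deriv (deriv w) x * (x - deriv w x) + deriv w x * (1 - deriv (deriv w) x)) x :=
      (d1 x hx).mul ((hasDerivAt_id x).sub (d1 x hx))
    have e2 : HasDerivAt (fun x => deriv w x * (x - deriv w x)) (deriv w x) x := by
      refine (d0 x hx).congr_of_eventuallyEq ?_
      filter_upwards [ho.mem_nhds hx] with y hy using h y hy
    have := e1.unique e2
    linarith
  have val : ∀ x ∈ Ioo (-r) r, deriv (deriv w) x = 0 ∨ deriv (deriv w) x = 1 / 2 := by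
    intro x hx
    by_cases hz : deriv (deriv w) x = 0
    · exact Or.inl hz
    right
    have hc : ContinuousAt (deriv (deriv w)) x := (h2.continuousOn).continuousAt (ho.mem_nhds hx)
    have hne : ∀ᶠ y in 𝓝 x, deriv (deriv w) y ≠ 0 := hc.eventually_ne hz
    have he : deriv w =ᶠ[𝓝 x] fun y => y / 2 := by
      filter_upwards [hne, ho.mem_nhds hx] with y hy hy'
      have := key y hy'
      rcases mul_eq_zero.1 this with h' | h'
      · exact absurd h' hy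
      · linarith
    have := he.deriv_eq
    rw [this]
    have : HasDerivAt (fun y : ℝ => y / 2) (1 / 2) x := (hasDerivAt_id x).div_const 2
    exact this.deriv
  have h0 : (0 : ℝ) ∈ Ioo (-r) r := ⟨by linarith, hr⟩
  have hcon : ∀ x ∈ Ioo (-r) r, deriv (deriv w) x = deriv (deriv w) 0 := by
    have hpc : IsPreconnected (Ioo (-r) r) := isPreconnected_Ioo
    intro x hx
    by_contra hne
    -- the value 1/4 is attained between
    have hiv := (hpc.image (deriv (deriv w)) h2.continuousOn).ordConnected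
    have m0 : deriv (deriv w) 0 ∈ deriv (deriv w) '' Ioo (-r) r := ⟨0, h0, rfl⟩
    have mx : deriv (deriv w) x ∈ deriv (deriv w) '' Ioo (-r) r := ⟨x, hx, rfl⟩
    have : (1 / 4 : ℝ) ∈ deriv (deriv w) '' Ioo (-r) r := by
      rcases val x hx with a | a <;> rcases val 0 h0 with b | b
      · exact absurd (a.trans b.symm) hne
      · exact hiv.out mx m0 ⟨by rw [a]; norm_num, by rw [b]; norm_num⟩
      · exact hiv.out m0 mx ⟨by rw [b]; norm_num, by rw [a]; norm_num⟩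
      · exact absurd (a.trans b.symm) hne
    obtain ⟨y, hy, hy'⟩ := this
    rcases val y hy with a | a <;> rw [a] at hy' <;> norm_num at hy'
  rcases val 0 h0 with a | a
  · left
    refine ⟨deriv w 0, fun x hx => ?_⟩
    have : deriv w x = deriv w 0 := by
      refine (convex_Ioo (-r) r).is_const_of_fderivWithin_eq_zero (𝕜 := ℝ)
        (h1.differentiableOn (by simp)) ?_ hx h0
      intro y hy
      rw [fderivWithin_of_isOpen ho hy]
      have := (d1 y hy)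
      rw [hcon y hy, a] at this
      have h3 := this.hasFDerivAt.fderiv
      rw [h3]; ext; simp
    have h4 := h x hx
    rw [this] at h4
    linarith
  · right
    intro x hx
    have h5 := key x hx
    rw [hcon x hx, a] at h5
    have h6 : deriv w x = x / 2 := by linarith
    have h4 := h x hx
    rw [h6] at h4
    linarith

/-- the auxiliary factor of `f_x` -/
noncomputable def AA (n : ℕ) (h : ℝ → ℝ) (V : ℝ × ℝ → ℝ) (p : ℝ × ℝ) : ℝ :=
  (p.2 - h p.1) * fderiv ℝ V p (1, 0) - (n + 1) * deriv h p.1 * V p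

/-- the auxiliary factor of `f_y` -/
noncomputable def DD (n : ℕ) (h : ℝ → ℝ) (V : ℝ × ℝ → ℝ) (p : ℝ × ℝ) : ℝ :=
  (n + 1) * V p + (p.2 - h p.1) * fderiv ℝ V p (0, 1)

lemma mem1 {r : ℝ} {p : ℝ × ℝ} (hp : p ∈ Metric.ball (0 : ℝ × ℝ) r) : p.1 ∈ Ioo (-r) r := by
  rw [mem_ball_zero_iff] at hp
  have := lt_of_le_of_lt (norm_fst_le p) hp
  rw [Real.norm_eq_abs, abs_lt] at this
  exact this

lemma dx_eq (n : ℕ) (r : ℝ) (w h : ℝ → ℝ) (V f : ℝ × ℝ → ℝ)
    (hw : ContDiffOn ℝ ∞ w (Ioo (-r) r)) (hh : ContDiffOn ℝ ∞ h (Ioo (-r) r))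
    (hV : ContDiffOn ℝ ∞ V (Metric.ball 0 r))
    (hf : ∀ p ∈ Metric.ball (0 : ℝ × ℝ) r, f p = w p.1 + (p.2 - h p.1) ^ (n + 1) * V p)
    (p : ℝ × ℝ) (hp : p ∈ Metric.ball (0 : ℝ × ℝ) r) :
    dx f p = deriv w p.1 + (p.2 - h p.1) ^ n * AA n h V p := by
  have hp1 := mem1 hp
  have dw : HasDerivAt w (deriv w p.1) p.1 :=
    ((hw.differentiableOn (by simp)).differentiableAt (isOpen_Ioo.mem_nhds hp1)).hasDerivAt
  have dh : HasDerivAt h (deriv h p.1) p.1 :=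
    ((hh.differentiableOn (by simp)).differentiableAt (isOpen_Ioo.mem_nhds hp1)).hasDerivAt
  have dV : HasFDerivAt V (fderiv ℝ V p) p :=
    ((hV.differentiableOn (by simp)).differentiableAt (Metric.isOpen_ball.mem_nhds hp)).hasFDerivAt
  have dc : HasDerivAt (fun t : ℝ => (t, p.2)) ((1 : ℝ), (0 : ℝ)) p.1 :=
    (hasDerivAt_id p.1).prodMk (hasDerivAt_const p.1 p.2)
  have dVx : HasDerivAt (fun t => V (t, p.2)) (fderiv ℝ V p (1, 0)) p.1 :=
    HasFDerivAt.comp_hasDerivAt (f := fun t : ℝ => (t, p.2)) p.1 dV dc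
  have dq : HasDerivAt (fun t => p.2 - h t) (-deriv h p.1) p.1 := dh.const_sub p.2
  have dqn := dq.pow (n + 1)
  have tot := dw.add (dqn.mul dVx)
  have ev : (fun t => f (t, p.2)) =ᶠ[𝓝 p.1]
      fun t => w t + (p.2 - h t) ^ (n + 1) * V (t, p.2) := by
    have : ∀ᶠ t in 𝓝 p.1, (t, p.2) ∈ Metric.ball (0 : ℝ × ℝ) r := by
      have hc : ContinuousAt (fun t : ℝ => (t, p.2)) p.1 := by fun_prop
      exact hc.eventually (Metric.isOpen_ball.mem_nhds hp)
    filter_upwards [this] with t ht using hf _ ht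
  unfold dx
  rw [ev.deriv_eq]
  have := tot.deriv
  simp only [Pi.add_def, Pi.mul_def, Pi.pow_def] at this
  rw [this]
  unfold AA
  push_cast
  try simp only [Nat.add_sub_cancel]
  ring

lemma dy_eq (n : ℕ) (r : ℝ) (w h : ℝ → ℝ) (V f : ℝ × ℝ → ℝ)
    (hV : ContDiffOn ℝ ∞ V (Metric.ball 0 r))
    (hf : ∀ p ∈ Metric.ball (0 : ℝ × ℝ) r, f p = w p.1 + (p.2 - h p.1) ^ (n + 1) * V p)
    (p : ℝ × ℝ) (hp : p ∈ Metric.ball (0 : ℝ × ℝ) r) :
    dy f p = (p.2 - h p.1) ^ n * DD n h V p := by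
  have dV : HasFDerivAt V (fderiv ℝ V p) p :=
    ((hV.differentiableOn (by simp)).differentiableAt (Metric.isOpen_ball.mem_nhds hp)).hasFDerivAt
  have dc : HasDerivAt (fun t : ℝ => (p.1, t)) ((0 : ℝ), (1 : ℝ)) p.2 :=
    (hasDerivAt_const p.2 p.1).prodMk (hasDerivAt_id p.2)
  have dVy : HasDerivAt (fun t => V (p.1, t)) (fderiv ℝ V p (0, 1)) p.2 :=
    HasFDerivAt.comp_hasDerivAt (f := fun t : ℝ => (p.1, t)) p.2 dV dc
  have dq : HasDerivAt (fun t => t - h p.1) 1 p.2 := (hasDerivAt_id p.2).sub_const (h p.1)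
  have dqn := dq.pow (n + 1)
  have tot := (hasDerivAt_const p.2 (w p.1)).add (dqn.mul dVy)
  have ev : (fun t => f (p.1, t)) =ᶠ[𝓝 p.2]
      fun t => w p.1 + (t - h p.1) ^ (n + 1) * V (p.1, t) := by
    have : ∀ᶠ t in 𝓝 p.2, (p.1, t) ∈ Metric.ball (0 : ℝ × ℝ) r := by
      have hc : ContinuousAt (fun t : ℝ => (p.1, t)) p.2 := by fun_prop
      exact hc.eventually (Metric.isOpen_ball.mem_nhds hp)
    filter_upwards [this] with t ht using hf _ ht
  unfold dy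
  rw [ev.deriv_eq]
  have := tot.deriv
  simp only [Pi.add_def, Pi.mul_def, Pi.pow_def] at this
  rw [this]
  unfold DD
  push_cast
  try simp only [Nat.add_sub_cancel]
  ring

lemma smoothA (n : ℕ) (r : ℝ) (h : ℝ → ℝ) (V : ℝ × ℝ → ℝ)
    (hh : ContDiffOn ℝ ∞ h (Ioo (-r) r))
    (hV : ContDiffOn ℝ ∞ V (Metric.ball 0 r)) :
    ContDiffOn ℝ ∞ (AA n h V) (Metric.ball 0 r) ∧ ContDiffOn ℝ ∞ (DD n h V) (Metric.ball 0 r) ∧
    ContDiffOn ℝ ∞ (fun p : ℝ × ℝ => p.2 - h p.1) (Metric.ball 0 r) := by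
  have hmaps : MapsTo (fun p : ℝ × ℝ => p.1) (Metric.ball 0 r) (Ioo (-r) r) := fun p hp => mem1 hp
  have c1 : ContDiffOn ℝ ∞ (fun p : ℝ × ℝ => h p.1) (Metric.ball 0 r) :=
    hh.comp contDiff_fst.contDiffOn hmaps
  have c2 : ContDiffOn ℝ ∞ (fun p : ℝ × ℝ => deriv h p.1) (Metric.ball 0 r) :=
    (hh.deriv_of_isOpen isOpen_Ioo (by simp) : ContDiffOn ℝ ∞ (deriv h) (Ioo (-r) r)).comp
      contDiff_fst.contDiffOn hmaps
  have c3 : ContDiffOn ℝ ∞ (fderiv ℝ V) (Metric.ball 0 r) :=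
    hV.fderiv_of_isOpen Metric.isOpen_ball (by simp)
  have c4 : ContDiffOn ℝ ∞ (fun p : ℝ × ℝ => p.2 - h p.1) (Metric.ball 0 r) :=
    contDiff_snd.contDiffOn.sub c1
  have c5 : ContDiffOn ℝ ∞ (fun p => fderiv ℝ V p (1, 0)) (Metric.ball 0 r) :=
    c3.clm_apply contDiffOn_const
  have c6 : ContDiffOn ℝ ∞ (fun p => fderiv ℝ V p (0, 1)) (Metric.ball 0 r) :=
    c3.clm_apply contDiffOn_const
  refine ⟨?_, ?_, c4⟩
  · exact (c4.mul c5).sub ((contDiffOn_const.mul c2).mul hV)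
  · exact (contDiffOn_const.mul hV).add (c4.mul c6)

/-- common set-up: a ball on which everything is defined -/
lemma setup (n : ℕ) (w h : ℝ → ℝ) (V f : ℝ × ℝ → ℝ) (hw : SmoothNear w) (hh : SmoothNear h)
    (hV : SmoothNear V) (h0 : h 0 = 0) (hV0 : V 0 ≠ 0)
    (hf : ∀ᶠ p in 𝓝 (0 : ℝ × ℝ), f p = w p.1 + (p.2 - h p.1) ^ (n + 1) * V p) :
    ∃ r : ℝ, 0 < r ∧ ContDiffOn ℝ ∞ w (Ioo (-r) r) ∧ ContDiffOn ℝ ∞ h (Ioo (-r) r) ∧
      ContDiffOn ℝ ∞ V (Metric.ball 0 r) ∧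
      (∀ p ∈ Metric.ball (0 : ℝ × ℝ) r, f p = w p.1 + (p.2 - h p.1) ^ (n + 1) * V p) ∧
      ∀ p ∈ Metric.ball (0 : ℝ × ℝ) r, DD n h V p ≠ 0 := by
  obtain ⟨U1, o1, m1, c1⟩ := hw
  obtain ⟨U2, o2, m2, c2⟩ := hh
  obtain ⟨U3, o3, m3, c3⟩ := hV
  obtain ⟨r1, p1, s1⟩ := Metric.isOpen_iff.1 o1 0 m1
  obtain ⟨r2, p2, s2⟩ := Metric.isOpen_iff.1 o2 0 m2
  obtain ⟨r3, p3, s3⟩ := Metric.isOpen_iff.1 o3 0 m3
  obtain ⟨r4, p4, s4⟩ := Metric.eventually_nhds_iff_ball.1 hf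
  set ρ := min (min r1 r2) (min r3 r4) with hρ
  have pρ : 0 < ρ := lt_min (lt_min p1 p2) (lt_min p3 p4)
  have i1 : ρ ≤ r1 := (min_le_left _ _).trans (min_le_left _ _)
  have i2 : ρ ≤ r2 := (min_le_left _ _).trans (min_le_right _ _)
  have i3 : ρ ≤ r3 := (min_le_right _ _).trans (min_le_left _ _)
  have i4 : ρ ≤ r4 := (min_le_right _ _).trans (min_le_right _ _)
  have b1 : ∀ r : ℝ, Ioo (-r) r = Metric.ball 0 r := fun r => by
    rw [Real.ball_eq_Ioo]; simp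
  have k1 : ContDiffOn ℝ ∞ w (Ioo (-ρ) ρ) := by
    rw [b1]; exact c1.mono ((Metric.ball_subset_ball i1).trans s1)
  have k2 : ContDiffOn ℝ ∞ h (Ioo (-ρ) ρ) := by
    rw [b1]; exact c2.mono ((Metric.ball_subset_ball i2).trans s2)
  have k3 : ContDiffOn ℝ ∞ V (Metric.ball 0 ρ) := c3.mono ((Metric.ball_subset_ball i3).trans s3)
  obtain ⟨-, kD, -⟩ := smoothA n ρ h V k2 k3
  have z0 : (0 : ℝ × ℝ) ∈ Metric.ball (0 : ℝ × ℝ) ρ := Metric.mem_ball_self pρ
  have D0 : DD n h V 0 ≠ 0 := by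
    unfold DD
    have e1 : ((0 : ℝ × ℝ).2 - h (0 : ℝ × ℝ).1) = 0 := by
      simp [h0]
    rw [e1, zero_mul, add_zero]
    exact mul_ne_zero (by positivity) hV0
  have cD : ContinuousAt (DD n h V) 0 :=
    kD.continuousOn.continuousAt (Metric.isOpen_ball.mem_nhds z0)
  obtain ⟨r5, p5, s5⟩ := Metric.eventually_nhds_iff_ball.1 (cD.eventually_ne D0)
  refine ⟨min ρ r5, lt_min pρ p5, ?_, ?_, ?_, ?_, ?_⟩
  · exact k1.mono (Ioo_subset_Ioo (by simp) (by simp))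
  · exact k2.mono (Ioo_subset_Ioo (by simp) (by simp))
  · exact k3.mono (Metric.ball_subset_ball (min_le_left _ _))
  · intro p hp
    exact s4 p (Metric.ball_subset_ball ((min_le_left _ _).trans i4) hp)
  · intro p hp
    exact s5 p (Metric.ball_subset_ball (min_le_right _ _) hp)

/-- sufficiency -/
lemma suff (n : ℕ) (w h : ℝ → ℝ) (V f : ℝ × ℝ → ℝ) (hw : SmoothNear w) (hh : SmoothNear h)
    (hV : SmoothNear V) (h0 : h 0 = 0) (hV0 : V 0 ≠ 0)
    (hf : ∀ᶠ p in 𝓝 (0 : ℝ × ℝ), f p = w p.1 + (p.2 - h p.1) ^ (n + 1) * V p)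
    (hcl : ∀ᶠ x in 𝓝 (0 : ℝ), deriv w x * (x - deriv w x) = w x) : ExtendsSmoothly f := by
  obtain ⟨r, hr, kw, kh, kV, kf, kD⟩ := setup n w h V f hw hh hV h0 hV0 hf
  obtain ⟨s, hs, ks⟩ := Metric.eventually_nhds_iff_ball.1 hcl
  obtain ⟨sA, sD, sq⟩ := smoothA n r h V kh kV
  have hsub : Metric.ball (0 : ℝ × ℝ) (min r s) ⊆ Metric.ball 0 r :=
    Metric.ball_subset_ball (min_le_left _ _)
  refine ⟨Metric.ball 0 (min r s), Metric.isOpen_ball, Metric.mem_ball_self (lt_min hr hs),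
    fun p => (AA n h V p * (p.1 - 2 * deriv w p.1) - (p.2 - h p.1) ^ n * AA n h V p ^ 2 -
      (p.2 - h p.1) * V p) / DD n h V p, ?_, ?_⟩
  · have hmaps : MapsTo (fun p : ℝ × ℝ => p.1) (Metric.ball 0 r) (Ioo (-r) r) :=
      fun p hp => mem1 hp
    have c2 : ContDiffOn ℝ ∞ (fun p : ℝ × ℝ => deriv w p.1) (Metric.ball 0 r) :=
      (kw.deriv_of_isOpen isOpen_Ioo (by simp) : ContDiffOn ℝ ∞ (deriv w) (Ioo (-r) r)).comp
        contDiff_fst.contDiffOn hmaps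
    refine ContDiffOn.mono ?_ hsub
    refine ContDiffOn.div ?_ sD kD
    exact ((sA.mul (contDiff_fst.contDiffOn.sub (contDiffOn_const.mul c2))).sub
      ((sq.pow n).mul (sA.pow 2))).sub (sq.mul kV)
  · intro p hp hne
    have hp' := hsub hp
    have e1 := dx_eq n r w h V f kw kh kV kf p hp'
    have e2 := dy_eq n r w h V f kV kf p hp'
    have e3 := kf p hp'
    have hD := kD p hp'
    have hcl' : deriv w p.1 * (p.1 - deriv w p.1) = w p.1 := by
      apply ks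
      rw [mem_ball_zero_iff] at hp ⊢
      exact lt_of_le_of_lt (norm_fst_le p) (lt_of_lt_of_le hp (min_le_right _ _))
    rw [e2] at hne
    have hq : (p.2 - h p.1) ^ n ≠ 0 := left_ne_zero_of_mul hne
    unfold R
    rw [e1, e2, e3, div_eq_div_iff hD hne, ← hcl']
    ring

/-- necessity -/
lemma nec (n : ℕ) (hn : 1 ≤ n) (w h : ℝ → ℝ) (V f : ℝ × ℝ → ℝ) (hw : SmoothNear w)
    (hh : SmoothNear h)
    (hV : SmoothNear V) (h0 : h 0 = 0) (hV0 : V 0 ≠ 0)
    (hf : ∀ᶠ p in 𝓝 (0 : ℝ × ℝ), f p = w p.1 + (p.2 - h p.1) ^ (n + 1) * V p)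
    (hE : ExtendsSmoothly f) :
    (∃ c, ∀ᶠ x in 𝓝 (0 : ℝ), w x = c * x - c ^ 2) ∨ ∀ᶠ x in 𝓝 (0 : ℝ), w x = x ^ 2 / 4 := by
  obtain ⟨r, hr, kw, kh, kV, kf, kD⟩ := setup n w h V f hw hh hV h0 hV0 hf
  obtain ⟨sA, sD, sq⟩ := smoothA n r h V kh kV
  obtain ⟨U, oU, mU, g, cg, hg⟩ := hE
  have h00 : (0 : ℝ) ∈ Ioo (-r) r := ⟨by linarith, hr⟩
  have ch0 : ContinuousAt h 0 := kh.continuousOn.continuousAt (isOpen_Ioo.mem_nhds h00)
  have cc : ContinuousAt (fun x : ℝ => (x, h x)) 0 := continuousAt_id.prodMk ch0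
  have hev : ∀ᶠ x in 𝓝 (0 : ℝ), (x, h x) ∈ U ∩ Metric.ball (0 : ℝ × ℝ) r := by
    apply cc.eventually
    apply (oU.inter Metric.isOpen_ball).mem_nhds
    show ((0 : ℝ), h 0) ∈ U ∩ Metric.ball (0 : ℝ × ℝ) r
    rw [h0]
    exact ⟨mU, Metric.mem_ball_self hr⟩
  obtain ⟨s, hs, ks⟩ := Metric.eventually_nhds_iff_ball.1 hev
  have hcl : ∀ x ∈ Metric.ball (0 : ℝ) s, deriv w x * (x - deriv w x) = w x := by
    intro x hx
    obtain ⟨hxU, hxB⟩ := ks x hx
    have hnh : U ∩ Metric.ball (0 : ℝ × ℝ) r ∈ 𝓝 (x, h x) :=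
      (oU.inter Metric.isOpen_ball).mem_nhds ⟨hxU, hxB⟩
    have cy : ContinuousAt (fun y : ℝ => (x, y)) (h x) := by fun_prop
    set F : ℝ × ℝ → ℝ := fun p => g p * ((p.2 - h p.1) ^ n * DD n h V p) -
      ((deriv w p.1 + (p.2 - h p.1) ^ n * AA n h V p) *
        (p.1 - (deriv w p.1 + (p.2 - h p.1) ^ n * AA n h V p)) -
        (w p.1 + (p.2 - h p.1) ^ (n + 1) * V p)) with hF
    have hx1 : x ∈ Ioo (-r) r := mem1 hxB
    have bn : Metric.ball (0 : ℝ × ℝ) r ∈ 𝓝 (x, h x) := Metric.isOpen_ball.mem_nhds hxB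
    have k1 : ContinuousAt g (x, h x) := cg.continuousOn.continuousAt (oU.mem_nhds hxU)
    have k2 : ContinuousAt (AA n h V) (x, h x) := sA.continuousOn.continuousAt bn
    have k3 : ContinuousAt (DD n h V) (x, h x) := sD.continuousOn.continuousAt bn
    have k4 : ContinuousAt (fun p : ℝ × ℝ => p.2 - h p.1) (x, h x) :=
      sq.continuousOn.continuousAt bn
    have k5 : ContinuousAt V (x, h x) := kV.continuousOn.continuousAt bn
    have k6 : ContinuousAt (fun p : ℝ × ℝ => deriv w p.1) (x, h x) := by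
      have : ContinuousAt (deriv w) x :=
        ((kw.deriv_of_isOpen isOpen_Ioo (by simp) :
          ContDiffOn ℝ ∞ (deriv w) (Ioo (-r) r)).continuousOn).continuousAt
          (isOpen_Ioo.mem_nhds hx1)
      exact ContinuousAt.comp (f := fun p : ℝ × ℝ => p.1) (x := (x, h x)) this continuousAt_fst
    have k7 : ContinuousAt (fun p : ℝ × ℝ => w p.1) (x, h x) := by
      have : ContinuousAt w x := kw.continuousOn.continuousAt (isOpen_Ioo.mem_nhds hx1)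
      exact ContinuousAt.comp (f := fun p : ℝ × ℝ => p.1) (x := (x, h x)) this continuousAt_fst
    have cF : ContinuousAt F (x, h x) := by
      rw [hF]
      exact (k1.mul ((k4.pow n).mul k3)).sub (((k6.add ((k4.pow n).mul k2)).mul
        (continuousAt_fst.sub (k6.add ((k4.pow n).mul k2)))).sub
        (k7.add ((k4.pow (n + 1)).mul k5)))
    have cFy : Tendsto (fun y => F (x, y)) (𝓝 (h x)) (𝓝 (F (x, h x))) :=
      ContinuousAt.tendsto (ContinuousAt.comp (f := fun y : ℝ => (x, y)) (x := h x) cF cy)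
    have z : ∀ᶠ y in 𝓝[≠] (h x), F (x, y) = 0 := by
      have h1 : ∀ᶠ y in 𝓝 (h x), (x, y) ∈ U ∩ Metric.ball (0 : ℝ × ℝ) r := cy.eventually hnh
      filter_upwards [h1.filter_mono nhdsWithin_le_nhds, self_mem_nhdsWithin] with y hy hy'
      have hq : (y - h x) ^ n ≠ 0 := pow_ne_zero _ (sub_ne_zero.2 hy')
      have e1 := dx_eq n r w h V f kw kh kV kf (x, y) hy.2
      have e2 := dy_eq n r w h V f kV kf (x, y) hy.2
      have e3 := kf (x, y) hy.2
      have hD := kD (x, y) hy.2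
      have hne : dy f (x, y) ≠ 0 := by
        rw [e2]; exact mul_ne_zero hq hD
      have e4 := hg (x, y) hy.1 hne
      unfold R at e4
      rw [eq_div_iff hne, e1, e2, e3] at e4
      simp only [hF]
      linarith
    have lim : F (x, h x) = 0 := by
      have t1 : Tendsto (fun y => F (x, y)) (𝓝[≠] (h x)) (𝓝 (F (x, h x))) :=
        cFy.mono_left nhdsWithin_le_nhds
      have t2 : Tendsto (fun y => F (x, y)) (𝓝[≠] (h x)) (𝓝 0) := by
        refine tendsto_const_nhds.congr' ?_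
        filter_upwards [z] with y hy using hy.symm
      exact tendsto_nhds_unique t1 t2
    simp only [hF, sub_self] at lim
    rw [zero_pow (by omega : n ≠ 0), zero_pow (by omega : n + 1 ≠ 0)] at lim
    linarith
  set t := min r s with ht
  have htp : 0 < t := lt_min hr hs
  have hb : ∀ x ∈ Ioo (-t) t, x ∈ Metric.ball (0 : ℝ) s := by
    intro x hx
    rw [mem_ball_zero_iff, Real.norm_eq_abs, abs_lt]
    exact ⟨by linarith [hx.1, min_le_right r s], by linarith [hx.2, min_le_right r s]⟩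
  have hn' : Ioo (-t) t ∈ 𝓝 (0 : ℝ) := isOpen_Ioo.mem_nhds ⟨by linarith, htp⟩
  rcases clairaut t htp w (kw.mono (Ioo_subset_Ioo (by simp [ht]) (by simp [ht])))
    (fun x hx => hcl x (hb x hx)) with ⟨c, hc⟩ | hc
  · left
    exact ⟨c, by filter_upwards [hn'] with x hx using hc x hx⟩
  · right
    filter_upwards [hn'] with x hx using hc x hx

/-- the first two conditions of the question -/
lemma cond (n : ℕ) (hn : 1 ≤ n) (w h : ℝ → ℝ) (V f : ℝ × ℝ → ℝ) (hw : SmoothNear w)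
    (hh : SmoothNear h)
    (hV : SmoothNear V) (h0 : h 0 = 0) (hV0 : V 0 ≠ 0)
    (hf : ∀ᶠ p in 𝓝 (0 : ℝ × ℝ), f p = w p.1 + (p.2 - h p.1) ^ (n + 1) * V p) :
    dy f 0 = 0 ∧ ¬ ∀ᶠ p in 𝓝 (0 : ℝ × ℝ), dy f p = 0 := by
  obtain ⟨r, hr, kw, kh, kV, kf, kD⟩ := setup n w h V f hw hh hV h0 hV0 hf
  constructor
  · rw [dy_eq n r w h V f kV kf 0 (Metric.mem_ball_self hr)]
    have : ((0 : ℝ × ℝ).2 - h (0 : ℝ × ℝ).1) = 0 := by simp [h0]
    rw [this, zero_pow (by omega : n ≠ 0), zero_mul]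
  · intro hev
    obtain ⟨s, hs, ks⟩ := Metric.eventually_nhds_iff_ball.1 hev
    set t := min r s with ht
    have htp : 0 < t := lt_min hr hs
    have hm : ((0 : ℝ), t / 2) ∈ Metric.ball (0 : ℝ × ℝ) t := by
      rw [mem_ball_zero_iff, Prod.norm_def]
      simp only [norm_zero, Real.norm_eq_abs]
      rw [abs_of_pos (by linarith : (0 : ℝ) < t / 2)]
      exact max_lt htp (by linarith)
    have m1 := Metric.ball_subset_ball (min_le_left r s) hm
    have m2 := Metric.ball_subset_ball (min_le_right r s) hm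
    have e := ks _ m2
    rw [dy_eq n r w h V f kV kf _ m1] at e
    rcases mul_eq_zero.1 e with e | e
    · have := pow_eq_zero_iff (by omega : n ≠ 0) |>.1 e
      simp only [h0] at this
      linarith
    · exact kD _ m1 e

/-- model families -/
lemma models (φ χ : ℝ → ℝ) (hφ : SmoothNear φ) (hχ : SmoothNear χ)
    (he : ∀ᶠ y in 𝓝 (0 : ℝ), φ y = χ y * deriv φ y) :
    ExtendsSmoothly (fun p => (φ p.2 - p.1 / 2) ^ 2) ∧
    ExtendsSmoothly (fun p => p.1 ^ 2 / 4 + φ p.2) ∧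
    (∀ c : ℝ, ExtendsSmoothly (fun p => c * p.1 - c ^ 2 + φ p.2)) := by
  obtain ⟨U1, o1, m1, c1⟩ := hφ
  obtain ⟨U2, o2, m2, c2⟩ := hχ
  obtain ⟨r3, p3, s3⟩ := Metric.eventually_nhds_iff_ball.1 he
  set W : Set (ℝ × ℝ) := (fun p : ℝ × ℝ => p.2) ⁻¹' (U1 ∩ U2 ∩ Metric.ball 0 r3) with hW
  have oW : IsOpen W := ((o1.inter o2).inter Metric.isOpen_ball).preimage continuous_snd
  have mW : ((0 : ℝ), (0 : ℝ)) ∈ W := ⟨⟨m1, m2⟩, Metric.mem_ball_self p3⟩
  have cg : ContDiffOn ℝ ∞ (fun p : ℝ × ℝ => -χ p.2) W :=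
    (c2.comp contDiff_snd.contDiffOn (fun p hp => hp.1.2)).neg
  have dφ : ∀ p ∈ W, HasDerivAt φ (deriv φ p.2) p.2 := fun p hp =>
    ((c1.differentiableOn (by simp)).differentiableAt (o1.mem_nhds hp.1.1)).hasDerivAt
  refine ⟨⟨W, oW, mW, _, cg, fun p hp hne => ?_⟩, ⟨W, oW, mW, _, cg, fun p hp hne => ?_⟩,
    fun c => ⟨W, oW, mW, _, cg, fun p hp hne => ?_⟩⟩
  · have ex : dx (fun p : ℝ × ℝ => (φ p.2 - p.1 / 2) ^ 2) p = -(φ p.2 - p.1 / 2) := by
      have h1 : HasDerivAt (fun t : ℝ => φ p.2 - t / 2) (-(1 / 2)) p.1 :=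
        ((hasDerivAt_id p.1).div_const 2).const_sub (φ p.2)
      have h2 := (h1.pow 2).deriv
      simp only [Pi.pow_def] at h2
      unfold dx
      rw [h2]; push_cast; ring
    have ey : dy (fun p : ℝ × ℝ => (φ p.2 - p.1 / 2) ^ 2) p =
        2 * (φ p.2 - p.1 / 2) * deriv φ p.2 := by
      have h1 : HasDerivAt (fun t : ℝ => φ t - p.1 / 2) (deriv φ p.2) p.2 :=
        (dφ p hp).sub_const (p.1 / 2)
      have h2 := (h1.pow 2).deriv
      simp only [Pi.pow_def] at h2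
      unfold dy
      rw [h2]; push_cast; ring
    unfold R
    rw [eq_div_iff hne, ex, ey]
    have := s3 p.2 hp.2
    linear_combination (-2 * (φ p.2 - p.1 / 2)) * (-this)
  · have ex : dx (fun p : ℝ × ℝ => p.1 ^ 2 / 4 + φ p.2) p = p.1 / 2 := by
      have h1 : HasDerivAt (fun t : ℝ => t ^ 2 / 4 + φ p.2) ((2 : ℕ) * p.1 ^ (2 - 1) / 4) p.1 :=
        ((hasDerivAt_pow 2 p.1).div_const 4).add_const (φ p.2)
      unfold dx
      rw [h1.deriv]; norm_num; ring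
    have ey : dy (fun p : ℝ × ℝ => p.1 ^ 2 / 4 + φ p.2) p = deriv φ p.2 :=
      ((dφ p hp).const_add (p.1 ^ 2 / 4)).deriv
    unfold R
    rw [eq_div_iff hne, ex, ey]
    have := s3 p.2 hp.2
    linear_combination this
  · have ex : dx (fun p : ℝ × ℝ => c * p.1 - c ^ 2 + φ p.2) p = c := by
      have h1 : HasDerivAt (fun t : ℝ => c * t - c ^ 2 + φ p.2) (c * 1) p.1 :=
        (((hasDerivAt_id p.1).const_mul c).sub_const (c ^ 2)).add_const (φ p.2)
      unfold dx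
      rw [h1.deriv]; ring
    have ey : dy (fun p : ℝ × ℝ => c * p.1 - c ^ 2 + φ p.2) p = deriv φ p.2 :=
      ((dφ p hp).const_add (c * p.1 - c ^ 2)).deriv
    unfold R
    rw [eq_div_iff hne, ex, ey]
    have := s3 p.2 hp.2
    linear_combination this

/-- the Clairaut family, `R_f = 0` -/
lemma clairautFamily (φ : ℝ → ℝ) :
    ExtendsSmoothly (fun p => p.1 * φ p.2 - φ p.2 ^ 2) := by
  refine ⟨univ, isOpen_univ, mem_univ _, fun _ => 0, contDiffOn_const, fun p _ hne => ?_⟩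
  have ex : dx (fun p : ℝ × ℝ => p.1 * φ p.2 - φ p.2 ^ 2) p = φ p.2 := by
    have h1 : HasDerivAt (fun t : ℝ => t * φ p.2 - φ p.2 ^ 2) (1 * φ p.2) p.1 :=
      ((hasDerivAt_id p.1).mul_const (φ p.2)).sub_const (φ p.2 ^ 2)
    unfold dx
    rw [h1.deriv]; ring
  unfold R
  rw [eq_div_iff hne, ex]
  ring

/-- **Main result.** Exact criterion when `f_y` vanishes to a finite constant order along a smooth
curve `y = h(x)` through the origin. -/
theorem result :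
    ∀ k : ℕ, 2 ≤ k → ∀ (w h : ℝ → ℝ) (V f : ℝ × ℝ → ℝ),
      SmoothNear w → SmoothNear h → SmoothNear V → h 0 = 0 → V 0 ≠ 0 →
      (∀ᶠ p in 𝓝 (0 : ℝ × ℝ), f p = w p.1 + (p.2 - h p.1) ^ k * V p) →
      dy f 0 = 0 ∧ (¬ ∀ᶠ p in 𝓝 (0 : ℝ × ℝ), dy f p = 0) ∧
      (ExtendsSmoothly f ↔
        (∃ c : ℝ, ∀ᶠ x in 𝓝 (0 : ℝ), w x = c * x - c ^ 2) ∨
        ∀ᶠ x in 𝓝 (0 : ℝ), w x = x ^ 2 / 4) := by
  intro k hk w h V f hw hh hV h0 hV0 hf
  obtain ⟨n, rfl⟩ : ∃ n, k = n + 1 := ⟨k - 1, by omega⟩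
  have hn : 1 ≤ n := by omega
  obtain ⟨a, b⟩ := cond n hn w h V f hw hh hV h0 hV0 hf
  refine ⟨a, b, fun hE => nec n hn w h V f hw hh hV h0 hV0 hf hE, fun hE => ?_⟩
  apply suff n w h V f hw hh hV h0 hV0 hf
  rcases hE with ⟨c, hc⟩ | hc
  · have hd : deriv w =ᶠ[𝓝 0] fun _ => c := by
      refine (EventuallyEq.deriv hc).trans (Eventually.of_forall fun x => ?_)
      have h1 : HasDerivAt (fun x : ℝ => c * x - c ^ 2) (c * 1) x :=
        ((hasDerivAt_id x).const_mul c).sub_const (c ^ 2)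
      show deriv (fun x : ℝ => c * x - c ^ 2) x = c
      rw [h1.deriv, mul_one]
    filter_upwards [hd, hc] with x h1 h2
    rw [h1, h2]; ring
  · have hd : deriv w =ᶠ[𝓝 0] fun x => x / 2 := by
      refine (EventuallyEq.deriv hc).trans (Eventually.of_forall fun x => ?_)
      have h1 : HasDerivAt (fun x : ℝ => x ^ 2 / 4) ((2 : ℕ) * x ^ (2 - 1) / 4) x :=
        (hasDerivAt_pow 2 x).div_const 4
      show deriv (fun x : ℝ => x ^ 2 / 4) x = x / 2
      rw [h1.deriv]; norm_num; ring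
    filter_upwards [hd, hc] with x h1 h2
    rw [h1, h2]; ring

end Pool.Agent.Results.MP_41f0f1_an.SmoothCriticalCurve
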